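import Pool.Agent.Helper53.SL.St2

set_option autoImplicit false

open Polynomial Filter Topology MeasureTheory Set

noncomputable section

namespace Pool.Agent.Helper1.SLM

open Pool.Agent.Helper53.SL

private theorem one_le_pr (s : Multiset ℂ) : 1 ≤ (s.map (fun a => max 1 ‖a‖)).prod := by
  induction s using Multiset.induction_on with
  | empty => simp
  | cons a s ih =>
    rw [Multiset.map_cons, Multiset.prod_cons]
    exact one_le_mul_of_one_le_of_one_le (le_max_left _ _) ih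

private theorem pr_eq_one (s : Multiset ℂ) (h : (s.map (fun a => max 1 ‖a‖)).prod = 1) :
    ∀ a ∈ s, ‖a‖ ≤ 1 := by
  intro a ha
  obtain ⟨t, rfl⟩ := Multiset.exists_cons_of_mem ha
  rw [Multiset.map_cons, Multiset.prod_cons] at h
  have h1 := one_le_pr t
  have h2 : (1 : ℝ) ≤ max 1 ‖a‖ := le_max_left _ _
  have h3 : max 1 ‖a‖ ≤ 1 :=
    (le_mul_of_one_le_right (zero_le_one.trans h2) h1).trans h.le
  exact (le_max_right _ _).trans h3

private theorem lead_cx (A : ℤ[X]) : (cx A).leadingCoeff = (A.leadingCoeff : ℂ) := by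
  unfold cx
  rw [Polynomial.leadingCoeff_map_of_injective (RingHom.injective_int _)]
  simp

private theorem lead_one (A : ℤ[X]) (h0 : cx A ≠ 0) : 1 ≤ ‖(cx A).leadingCoeff‖ := by
  have h1 : (cx A).leadingCoeff ≠ 0 := leadingCoeff_ne_zero.2 h0
  rw [lead_cx] at h1 ⊢
  have h2 : A.leadingCoeff ≠ 0 := by
    intro h; apply h1; rw [h]; simp
  rw [Complex.norm_intCast]
  have h3 := Int.one_le_abs h2
  exact_mod_cast h3

private theorem lead_pm (A : ℤ[X]) (h : ‖(cx A).leadingCoeff‖ = 1) :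
    A.leadingCoeff = 1 ∨ A.leadingCoeff = -1 := by
  rw [lead_cx, Complex.norm_intCast] at h
  have h3 : |A.leadingCoeff| = 1 := by exact_mod_cast h
  rcases abs_eq (zero_le_one) |>.1 h3 with h4 | h4
  · exact Or.inl h4
  · exact Or.inr h4

private theorem ne_of_mm (A : ℤ[X]) {τ : ℝ} (hτ : 0 < τ) (h : (cx A).mahlerMeasure = τ) : cx A ≠ 0 := by
  intro h0
  rw [h0, Polynomial.mahlerMeasure_zero] at h
  linarith

/-- integrability of the products with cosines -/
private theorem int_cos {f : ℝ → ℝ} (hf : MemLp f 2 (volume.restrict (Ioc 0 (2 * Real.pi)))) (n : ℕ) :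
    IntervalIntegrable (fun t => f t * Real.cos (n * t)) volume 0 (2 * Real.pi) := by
  rw [intervalIntegrable_iff_integrableOn_Ioc_of_le (by positivity)]
  have h1 : Integrable f (volume.restrict (Ioc 0 (2 * Real.pi))) := hf.integrable one_le_two
  have hc : Continuous (fun t : ℝ => Real.cos (n * t)) := by fun_prop
  have h2 : Integrable (fun t => Real.cos (n * t) * f t) (volume.restrict (Ioc 0 (2 * Real.pi))) :=
    h1.bdd_mul hc.aestronglyMeasurable (c := 1)
      (Eventually.of_forall fun t => by rw [Real.norm_eq_abs]; exact Real.abs_cos_le_one _)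
  refine (h2.congr (Eventually.of_forall fun t => ?_))
  exact mul_comm _ _

private theorem re_sum (s : Multiset ℂ) : s.sum.re = (s.map Complex.re).sum := by
  induction s using Multiset.induction_on with
  | empty => simp
  | cons a s ih => simp [ih]

/-- the sum over the roots of `A` -/
private theorem sum_A {τ : ℝ} (h1τ : 1 < τ) (t : Multiset ℂ) (ht : ∀ a ∈ t, ‖a‖ ≤ 1) (n : ℕ) :
    ((((τ : ℂ) ::ₘ t)).map fun α => if ‖α‖ ≤ 1 then (α ^ n).re else ((α⁻¹) ^ n).re).sum =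
      ((((τ : ℂ) ::ₘ t)).map fun α => α ^ n).sum.re - τ ^ n + (τ⁻¹) ^ n := by
  have hn : ¬ ‖(τ : ℂ)‖ ≤ 1 := by
    rw [Complex.norm_real, Real.norm_eq_abs, abs_of_pos (by linarith)]
    linarith
  have h1 : ((τ : ℂ) ^ n).re = τ ^ n := by rw [← Complex.ofReal_pow, Complex.ofReal_re]
  have h2 : (((τ : ℂ)⁻¹) ^ n).re = (τ⁻¹) ^ n := by
    rw [← Complex.ofReal_inv, ← Complex.ofReal_pow, Complex.ofReal_re]
  have h3 : (t.map fun α => if ‖α‖ ≤ 1 then (α ^ n).re else ((α⁻¹) ^ n).re).sum =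
      (t.map fun α => α ^ n).sum.re := by
    rw [re_sum, Multiset.map_map]
    congr 1
    apply Multiset.map_congr rfl
    intro a ha
    rw [if_pos (ht a ha)]
    rfl
  rw [Multiset.map_cons, Multiset.sum_cons, if_neg hn, h2, h3, Multiset.map_cons, Multiset.sum_cons,
    Complex.add_re, h1]
  ring

private theorem sum_Q (t : Multiset ℂ) (ht : ∀ a ∈ t, ‖a‖ ≤ 1) (n : ℕ) :
    (t.map fun α => if ‖α‖ ≤ 1 then (α ^ n).re else ((α⁻¹) ^ n).re).sum = (t.map fun α => α ^ n).sum.re := by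
  rw [re_sum, Multiset.map_map]
  congr 1
  apply Multiset.map_congr rfl
  intro a ha
  rw [if_pos (ht a ha)]
  rfl

private theorem re_div (n : ℕ) (g : ℕ → ℤ) :
    (∑ d ∈ n.divisors, (d : ℂ) * g d).re = ∑ d ∈ n.divisors, (d : ℝ) * g d := by
  have h : (∑ d ∈ n.divisors, (d : ℂ) * g d) = ((∑ d ∈ n.divisors, (d : ℝ) * g d : ℝ) : ℂ) := by
    push_cast; rfl
  rw [h, Complex.ofReal_re]

/-- the `p`-th power of a function in all `L^m` is integrable -/
private theorem int_rpow {f : ℝ → ℝ} {p : ℝ} (hp : 1 < p)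
    (hf : ∀ m : ℕ, MemLp f m (volume.restrict (Ioc 0 (2 * Real.pi)))) :
    Integrable (fun t => |f t| ^ p) (volume.restrict (Ioc 0 (2 * Real.pi))) := by
  have hk : p ≤ (⌈p⌉₊ : ℝ) := Nat.le_ceil p
  have hk0 : ⌈p⌉₊ ≠ 0 := by
    have : 0 < ⌈p⌉₊ := Nat.ceil_pos.2 (by linarith)
    omega
  have h1 : Integrable (fun t => ‖f t‖ ^ ⌈p⌉₊) (volume.restrict (Ioc 0 (2 * Real.pi))) :=
    (hf ⌈p⌉₊).integrable_norm_pow hk0
  have h2 : Integrable (fun t => 1 + ‖f t‖ ^ ⌈p⌉₊) (volume.restrict (Ioc 0 (2 * Real.pi))) :=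
    (integrable_const (1 : ℝ)).add h1
  have hm : AEStronglyMeasurable f (volume.restrict (Ioc 0 (2 * Real.pi))) :=
    (hf 1).aestronglyMeasurable
  refine h2.mono' ?_ (Eventually.of_forall fun t => ?_)
  · exact (hm.norm.aemeasurable.pow_const p).aestronglyMeasurable
  · have h0 : 0 ≤ |f t| := abs_nonneg _
    rw [Real.norm_eq_abs, abs_of_nonneg (Real.rpow_nonneg h0 p), Real.norm_eq_abs]
    by_cases h : |f t| ≤ 1
    · have h3 : |f t| ^ p ≤ 1 := Real.rpow_le_one h0 h (by linarith)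
      have h4 : 0 ≤ |f t| ^ ⌈p⌉₊ := pow_nonneg h0 _
      linarith
    · have h3 : |f t| ^ p ≤ |f t| ^ (⌈p⌉₊ : ℝ) :=
        Real.rpow_le_rpow_of_exponent_le (by linarith) hk
      rw [Real.rpow_natCast] at h3
      linarith

theorem hDtp (h1 : StMmp) (h2 : StFou) (h3 : StLpl) (h4 : StPow) : StDtp := by
  intro p B hp
  obtain ⟨m, C0, hm, hC⟩ := h3 p (2 * Real.pi * B) hp
  refine ⟨m, C0 / Real.pi ^ (2 * m), hm, fun τ hτ => ?_⟩
  obtain ⟨hS, A, Q, hA0, hAM, hQM, hmom⟩ := hτ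
  have h1τ : 1 < τ := hS.2.1
  have hA : cx A ≠ 0 := ne_of_mm A (by linarith) hAM
  have hQ : cx Q ≠ 0 := ne_of_mm Q (by norm_num) hQM
  -- roots of `Q`
  have hQf := Polynomial.mahlerMeasure_eq_leadingCoeff_mul_prod_roots (cx Q)
  rw [hQM] at hQf
  have hQl := lead_one Q hQ
  have hQp := one_le_pr (cx Q).roots
  have hQl1 : ‖(cx Q).leadingCoeff‖ = 1 := by nlinarith
  have hQp1 : ((cx Q).roots.map (fun a => max 1 ‖a‖)).prod = 1 := by nlinarith
  have hQr := pr_eq_one _ hQp1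
  -- roots of `A`
  have hτr : (τ : ℂ) ∈ (cx A).roots := by
    rw [mem_roots hA, IsRoot.def]
    unfold cx
    have h5 : aeval ((algebraMap ℝ ℂ) τ) A = 0 := by
      rw [aeval_algebraMap_apply, hA0, map_zero]
    rw [eval_map]
    exact h5
  obtain ⟨t, ht⟩ := Multiset.exists_cons_of_mem hτr
  have hAf := Polynomial.mahlerMeasure_eq_leadingCoeff_mul_prod_roots (cx A)
  have hmx : max 1 ‖(τ : ℂ)‖ = τ := by
    rw [Complex.norm_real, Real.norm_eq_abs, abs_of_pos (by linarith)]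
    exact max_eq_right h1τ.le
  rw [hAM, ht, Multiset.map_cons, Multiset.prod_cons, hmx] at hAf
  have hAl := lead_one A hA
  have hAp := one_le_pr t
  have hprod : ‖(cx A).leadingCoeff‖ * (t.map (fun a => max 1 ‖a‖)).prod = 1 := by
    have h6 : τ * (‖(cx A).leadingCoeff‖ * (t.map (fun a => max 1 ‖a‖)).prod) = τ * 1 := by
      rw [mul_one]; nlinarith
    exact mul_left_cancel₀ (by linarith) h6
  have hAl1 : ‖(cx A).leadingCoeff‖ = 1 := by nlinarith
  have hAp1 : (t.map (fun a => max 1 ‖a‖)).prod = 1 := by nlinarith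
  have hAr := pr_eq_one _ hAp1
  obtain ⟨gA, hgA⟩ := h4 A (lead_pm A hAl1)
  obtain ⟨gQ, hgQ⟩ := h4 Q (lead_pm Q hQl1)
  have hmA : MemLp (fun t => Real.log ‖(cx A).eval (circleMap 0 1 t)‖) 2
      (volume.restrict (Ioc 0 (2 * Real.pi))) := by
    have := h1 _ hA 2
    exact_mod_cast this
  have hmQ : MemLp (fun t => Real.log ‖(cx Q).eval (circleMap 0 1 t)‖) 2
      (volume.restrict (Ioc 0 (2 * Real.pi))) := by
    have := h1 _ hQ 2
    exact_mod_cast this
  have hmf : MemLp (LF A Q) 2 (volume.restrict (Ioc 0 (2 * Real.pi))) := hmA.sub hmQ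
  have hmi : Integrable (fun t => |LF A Q t| ^ p) (volume.restrict (Ioc 0 (2 * Real.pi))) :=
    int_rpow hp fun j => (h1 _ hA j).sub (h1 _ hQ j)
  have hav : (∫ t in (0 : ℝ)..2 * Real.pi, |LF A Q t| ^ p) = 2 * Real.pi * momp p A Q := by
    unfold momp
    rw [Real.circleAverage_def, smul_eq_mul, ← mul_assoc, mul_inv_cancel₀ (by positivity), one_mul]
    rfl
  have hle : (∫ t in (0 : ℝ)..2 * Real.pi, |LF A Q t| ^ p) ≤ 2 * Real.pi * B := by
    rw [hav]
    exact mul_le_mul_of_nonneg_left hmom (by positivity)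
  refine ⟨fun d => gA d - gQ d, fun N => ?_⟩
  have hb := hC _ hmf hmi hle N
  have hint : ∀ n ∈ Finset.Icc 1 N, (∫ t in (0 : ℝ)..2 * Real.pi, LF A Q t * Real.cos (n * t)) =
      -(Real.pi * (((∑ d ∈ n.divisors, (d : ℝ) * ((gA d - gQ d : ℤ) : ℝ)) - τ ^ n + (τ⁻¹) ^ n) / n)) := by
    intro n hn
    have hn1 : 1 ≤ n := (Finset.mem_Icc.1 hn).1
    have e1 : (∫ t in (0 : ℝ)..2 * Real.pi, LF A Q t * Real.cos (n * t)) =
        (∫ t in (0 : ℝ)..2 * Real.pi, Real.log ‖(cx A).eval (circleMap 0 1 t)‖ * Real.cos (n * t)) -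
        ∫ t in (0 : ℝ)..2 * Real.pi, Real.log ‖(cx Q).eval (circleMap 0 1 t)‖ * Real.cos (n * t) := by
      rw [← intervalIntegral.integral_sub (int_cos hmA n) (int_cos hmQ n)]
      congr 1
      funext t
      simp only [LF]
      ring
    rw [e1, h2 _ n hA hn1, h2 _ n hQ hn1, ht, sum_A h1τ t hAr n, sum_Q _ hQr n, ← ht, hgA n hn1,
      hgQ n hn1, re_div, re_div]
    have e2 : (∑ d ∈ n.divisors, (d : ℝ) * ((gA d - gQ d : ℤ) : ℝ)) =
        (∑ d ∈ n.divisors, (d : ℝ) * gA d) - ∑ d ∈ n.divisors, (d : ℝ) * gQ d := by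
      rw [← Finset.sum_sub_distrib]
      refine Finset.sum_congr rfl fun d _ => ?_
      push_cast
      ring
    rw [e2]
    have hn0 : (n : ℝ) ≠ 0 := by positivity
    field_simp
    ring
  have hsum : ∑ n ∈ Finset.Icc 1 N, (∫ t in (0 : ℝ)..2 * Real.pi, LF A Q t * Real.cos (n * t)) ^ (2 * m) =
      Real.pi ^ (2 * m) * ∑ n ∈ Finset.Icc 1 N,
        (((∑ d ∈ n.divisors, (d : ℝ) * ((gA d - gQ d : ℤ) : ℝ)) - τ ^ n + (τ⁻¹) ^ n) / n) ^ (2 * m) := by
    rw [Finset.mul_sum]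
    refine Finset.sum_congr rfl fun n hn => ?_
    rw [hint n hn, Even.neg_pow (even_two_mul m), mul_pow]
  rw [hsum] at hb
  have hpi : 0 < Real.pi ^ (2 * m) := by positivity
  rw [le_div_iff₀ hpi, mul_comm]
  exact hb

end Pool.Agent.Helper1.SLM

end
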